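import Pool.Agent.H20.RU.Pri

/-!
Finite Galois extensions with bounded ramification.
-/

set_option linter.style.haveILetI false

namespace RS

open Polynomial IntermediateField

variable {k K : Type*} [Field k] [Field K] [Algebra k K]

/-- `L` is a finite Galois extension of `F`, and no element of its group which is induced by an
automorphism in an inertia group has order divisible by `M` -/
def RamNo {F : IntermediateField k K} (L : IntermediateField F K) (M : ℕ) : Prop :=
  FiniteDimensional F L ∧ IsGalois F L ∧ ∀ g : Gal(K/k), Inert F g → ∀ σ : Gal(L/F),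
    (∀ v : L, ((σ v : L) : K) = g v) → ¬ M ∣ orderOf σ

theorem galois_le_ramS {N s : ℕ} (hN : N.Prime) {F : IntermediateField k K}
    (L : IntermediateField F K) (hL : RamNo L (N ^ (s + 1))) :
    L.restrictScalars k ≤ ramS N s F := by
  classical
  obtain ⟨hfd, hgal, hram⟩ := hL
  have hc0 : Nat.card Gal(L/F) ≠ 0 := Nat.card_pos.ne'
  obtain ⟨a, e, he, hae⟩ := Nat.exists_eq_pow_mul_and_not_dvd hc0 N hN.ne_one
  have heN : Nat.Coprime e N := by
    rw [Nat.coprime_comm]
    exact (Nat.Prime.coprime_iff_not_dvd hN).2 he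
  intro z hz
  have hzL : z ∈ L := hz
  refine mem_ramS.2 ⟨e, heN, fun g hg => ?_⟩
  let g' : Gal(K/F) := AlgEquiv.ofRingEquiv (f := (g : K ≃+* K)) (fun f =>
    ALG.mem_fs.1 hg.1 f.1 f.2)
  have h1 : ∀ (i : ℕ) (v : K), (g' ^ i) v = (g ^ i) v := by
    intro i
    induction i with
    | zero => intro v; rfl
    | succ i ih =>
      intro v
      rw [pow_succ', pow_succ', AlgEquiv.mul_apply, AlgEquiv.mul_apply, ih]
      rfl
  have hσ : ¬ N ^ (s + 1) ∣ orderOf (AlgEquiv.restrictNormalHom L g') :=
    hram g hg _ fun v => AlgEquiv.restrictNormal_commutes g' L v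
  have hpow : AlgEquiv.restrictNormalHom L g' ^ (e * N ^ s) = 1 := by
    set σ := AlgEquiv.restrictNormalHom L g' with hσdef
    apply orderOf_dvd_iff_pow_eq_one.1
    have h0 : orderOf σ ≠ 0 := (orderOf_pos σ).ne'
    obtain ⟨b, m, hm, hbm⟩ := Nat.exists_eq_pow_mul_and_not_dvd h0 N hN.ne_one
    have hmN : Nat.Coprime m (N ^ a) := by
      refine Nat.Coprime.pow_right a ?_
      rw [Nat.coprime_comm]
      exact (Nat.Prime.coprime_iff_not_dvd hN).2 hm
    have hme : m ∣ e := by
      have h2 : orderOf σ ∣ N ^ a * e := by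
        rw [← hae]
        exact orderOf_dvd_natCard σ
      have h3 : m ∣ N ^ a * e := (Dvd.intro_left _ hbm.symm).trans h2
      exact hmN.dvd_of_dvd_mul_left h3
    have hbs : b ≤ s := by
      by_contra hcon
      apply hσ
      rw [hbm]
      exact Dvd.dvd.mul_right (pow_dvd_pow N (by omega)) m
    rw [hbm, mul_comm]
    exact Nat.mul_dvd_mul hme (pow_dvd_pow N hbs)
  have h3 : AlgEquiv.restrictNormal (g' ^ (e * N ^ s)) L = 1 := by
    have h4 := map_pow (AlgEquiv.restrictNormalHom (F := F) (K₁ := K) L) g' (e * N ^ s)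
    change AlgEquiv.restrictNormalHom L (g' ^ (e * N ^ s)) = 1
    rw [h4]
    exact hpow
  have h5 := AlgEquiv.restrictNormal_commutes (g' ^ (e * N ^ s)) L ⟨z, hzL⟩
  rw [h3] at h5
  rw [← h1]
  exact h5.symm

end RS
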