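import Pool.Agent.H20.RU.Pri
import Pool.Agent.H20.RT.Val

/-!
The values of the elements of `F_s` (bounded ramification): the proof of `CopValS.main`
(H20/RT/Val.lean, by helper87), where the hypothesis is used only for an automorphism which
preserves the valuation ring.
-/

set_option linter.style.haveILetI false

namespace RS

open Polynomial IntermediateField

theorem CopValR.main {k K : Type*} [Field k] [IsAlgClosed k] [Field K] [IsAlgClosed K]
    [Algebra k K]
    (hconj : ∀ (V : IntermediateField k K), Algebra.IsAlgebraic V K → ∀ (B B' : ValuationSubring K),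
      (∀ z ∈ V, z ∈ B ↔ z ∈ B') → ∃ g ∈ V.fixingSubgroup, ∀ z : K, z ∈ B ↔ g z ∈ B')
    (F : IntermediateField k K) [Algebra.IsAlgebraic F K] (B : ValuationSubring K)
    (hB1 : ∀ c : k, c ≠ 0 → B.valuation (algebraMap k K c) = 1)
    (hB3 : ∀ z : K, B.valuation z = 1 → ∃ c : k, c ≠ 0 ∧ B.valuation (z - algebraMap k K c) < 1)
    (N : ℕ) (hN : N.Prime) (hNk : (N : k) ≠ 0) (s : ℕ) {z : K} (hz0 : z ≠ 0)
    (hz : ∃ e, Nat.Coprime e N ∧ ∀ g ∈ F.fixingSubgroup, (∀ y : K, y ∈ B ↔ g y ∈ B) →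
      (g ^ (e * N ^ s)) z = z) :
    ∃ c : ℕ, Nat.Coprime c N ∧ ∃ b ∈ F, B.valuation z ^ (c * N ^ s) = B.valuation b := by
  classical
  set w := B.valuation with hw
  obtain ⟨e, heN, he⟩ := hz
  -- a minimal exponent
  have hex : ∃ c : ℕ, c ≠ 0 ∧ ∃ b ∈ F, w z ^ c = w b := by
    obtain ⟨P, hP, hPz⟩ := (Algebra.IsAlgebraic.isAlgebraic (R := F) z)
    obtain ⟨c, hc0, -, a, haF, -, hwa⟩ := DclVal.root w F P hP le_rfl hz0 hPz
    exact ⟨c, hc0, a, haF, hwa⟩
  set c := Nat.find hex with hc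
  obtain ⟨hc0, b, hbF, hcb⟩ : c ≠ 0 ∧ ∃ b ∈ F, w z ^ c = w b := Nat.find_spec hex
  have hmin : ∀ i, 0 < i → i < c → ∀ a ∈ F, w z ^ i ≠ w a := by
    intro i h0 hi a ha h
    exact Nat.find_min hex hi ⟨h0.ne', a, ha, h⟩
  obtain ⟨M, hM⟩ : ∃ M : ℕ, M = N ^ (s + 1) := ⟨_, rfl⟩
  have hM0 : 0 < M := by rw [hM]; exact pow_pos hN.pos _
  by_cases hNc : M ∣ c
  swap
  · obtain ⟨a, c', hc', hca⟩ := Nat.exists_eq_pow_mul_and_not_dvd hc0 N hN.one_lt.ne'
    have has : a ≤ s := by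
      by_contra hlt
      push Not at hlt
      apply hNc
      rw [hM, hca]
      exact Dvd.dvd.mul_right (pow_dvd_pow N hlt) _
    refine ⟨c', ((Nat.Prime.coprime_iff_not_dvd hN).2 hc').symm, b ^ N ^ (s - a),
      pow_mem hbF _, ?_⟩
    have h1 : c' * N ^ s = c * N ^ (s - a) := by
      rw [hca]
      have h2 : N ^ s = N ^ a * N ^ (s - a) := by
        rw [← pow_add]; congr 1; omega
      rw [h2]; ring
    rw [h1, pow_mul, hcb, ← map_pow]
  exfalso
  obtain ⟨m, hm⟩ := hNc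
  have hm0 : 0 < m := by
    rcases Nat.eq_zero_or_pos m with h | h
    · rw [h, mul_zero] at hm; exact absurd hm hc0
    · exact h
  set f : K := z ^ m with hf
  have hf0 : f ≠ 0 := pow_ne_zero _ hz0
  have hfN : w f ^ M = w b := by
    rw [hf, map_pow, ← pow_mul, mul_comm m M, ← hm, hcb]
  have hfi : ∀ i, 0 < i → i < M → ∀ a ∈ F, w f ^ i ≠ w a := by
    intro i h0 hi a ha h
    rw [hf, map_pow, ← pow_mul] at h
    refine hmin (m * i) (Nat.mul_pos hm0 h0) ?_ a ha h
    rw [hm, mul_comm M m]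
    exact Nat.mul_lt_mul_of_pos_left hi hm0
  obtain ⟨β, hβ⟩ := IsAlgClosed.exists_pow_nat_eq b hM0
  have hb0 : b ≠ 0 := by
    rw [← Valuation.ne_zero_iff w, ← hfN]
    exact pow_ne_zero _ ((Valuation.ne_zero_iff w).2 hf0)
  have hβ0 : β ≠ 0 := by
    intro h
    rw [h, zero_pow hM0.ne'] at hβ
    exact hb0 hβ.symm
  have hwβ0 : w β ≠ 0 := (Valuation.ne_zero_iff w).2 hβ0
  set u : K := f / β with hu
  have hwu : w u = 1 := by
    have h1 : w u ^ M = 1 := by
      rw [hu, map_div₀, div_pow, hfN, ← map_pow, hβ, div_self ((Valuation.ne_zero_iff w).2 hb0)]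
    exact (pow_eq_one_iff.1 h1).resolve_right hM0.ne'
  have hwβ : w β = w f := by
    have h1 : w f = w u * w β := by
      rw [← map_mul, hu, div_mul_cancel₀ _ hβ0]
    rw [h1, hwu, one_mul]
  have hβi : ∀ i, 0 < i → i < M → ∀ a ∈ F, w β ^ i ≠ w a := by
    rw [hwβ]; exact hfi
  obtain ⟨c0, hc00, hc0u⟩ := hB3 u hwu
  -- an automorphism moving `β ^ (N ^ s)`
  have hγN : (β ^ N ^ s) ^ N = b := by
    rw [← pow_mul, ← pow_succ, ← hM, hβ]
  obtain ⟨s0, hs0F, hs0β⟩ : ∃ s0 ∈ F.fixingSubgroup, s0 (β ^ N ^ s) ≠ β ^ N ^ s := by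
    by_contra hcon
    push Not at hcon
    obtain ⟨p, hp⟩ := ExpChar.exists k
    obtain ⟨a, ha⟩ := ALG.pow_mem_of_fixed p F hcon
    have hNp : ¬ N ∣ p ^ a := by
      intro h
      have h1 : N ∣ p := hN.dvd_of_dvd_pow h
      rcases hp with _ | ⟨hpp⟩
      · exact hN.one_lt.ne' (Nat.dvd_one.1 h1)
      · have h2 : N = p := (Nat.prime_dvd_prime_iff_eq hN hpp).1 h1
        apply hNk
        rw [h2]
        exact CharP.cast_eq_zero k p
    have hr0 : 0 < p ^ a % N := Nat.pos_of_ne_zero fun h => hNp (Nat.dvd_of_mod_eq_zero h)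
    refine hβi (N ^ s * (p ^ a % N)) (Nat.mul_pos (pow_pos hN.pos _) hr0) ?_
      ((β ^ N ^ s) ^ p ^ a / b ^ (p ^ a / N)) (F.div_mem ha (pow_mem hbF _)) ?_
    · rw [hM, pow_succ]
      exact Nat.mul_lt_mul_of_pos_left (Nat.mod_lt _ hN.pos) (pow_pos hN.pos _)
    · have h3 : (β ^ N ^ s) ^ p ^ a = β ^ (N ^ s * (p ^ a % N)) * b ^ (p ^ a / N) := by
        rw [pow_mul, ← hγN, ← pow_mul (β ^ N ^ s) N, ← pow_add, Nat.mod_add_div]
      rw [h3, mul_div_cancel_right₀ _ (pow_ne_zero _ hb0), map_pow]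
  obtain ⟨ζ, hζ⟩ := ALG.exists_algebraMap_of_pow (k := k) (a := s0 β) (b := β) M hM0 (by
    rw [← map_pow, hβ, ALG.mem_fs.1 hs0F _ hbF])
  have hζ1 : ζ ^ N ^ s ≠ 1 := by
    intro h
    apply hs0β
    rw [map_pow, hζ, mul_pow, ← map_pow, h, map_one, one_mul]
  have hζN : ζ ^ M = 1 := by
    have h1 : (s0 β) ^ M = β ^ M := by rw [← map_pow, hβ, ALG.mem_fs.1 hs0F _ hbF]
    rw [hζ, mul_pow] at h1
    have h2 : (algebraMap k K ζ) ^ M = 1 := mul_right_cancel₀ (pow_ne_zero M hβ0) (by rw [h1, one_mul])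
    rw [← map_pow] at h2
    exact (algebraMap k K).injective (by rw [h2, map_one])
  have hζ0 : ζ ≠ 0 := by
    rintro rfl
    rw [zero_pow hM0.ne'] at hζN
    exact zero_ne_one hζN
  -- the valuation ring and its image agree on `F(β)`
  set V : IntermediateField k K := (adjoin F {β}).restrictScalars k with hV
  have hFV : F ≤ V := fun v hv => by
    rw [hV, mem_restrictScalars]
    exact (adjoin F {β}).algebraMap_mem ⟨v, hv⟩
  have hβV : β ∈ V := by
    rw [hV, mem_restrictScalars]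
    exact mem_adjoin_simple_self F β
  have hVal : ∀ a ∈ V, w (s0 a) = w a := by
    intro a ha
    obtain ⟨q, hq, rfl⟩ := CopVal.expand F hM0 hbF hβ ha
    rw [map_sum]
    symm
    refine CopVal.sum_eq w (Finset.range M) ⟨0, Finset.mem_range.2 hM0⟩ _ _ ?_ ?_
    · intro i hi
      rw [map_mul, map_mul, map_mul, map_pow, map_pow, hζ, ALG.mem_fs.1 hs0F _ (hq i), map_pow,
        map_mul, hB1 ζ hζ0, one_mul]
    · intro i hi j hj hij hti h
      have hqi : q i ≠ 0 := left_ne_zero_of_mul hti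
      have hqj : q j ≠ 0 := by
        intro hj0
        rw [hj0, zero_mul, map_zero] at h
        exact hti ((Valuation.zero_iff w).1 h)
      have key : ∀ i j : ℕ, i < M → j < M → i < j → q i ≠ 0 → q j ≠ 0 →
          w (q i * β ^ i) ≠ w (q j * β ^ j) := by
        intro i j hi hj hlt hqi hqj h
        refine hβi (j - i) (by omega) (by omega) (q i / q j) (F.div_mem (hq i) (hq j)) ?_
        rw [map_div₀, eq_div_iff ((Valuation.ne_zero_iff w).2 hqj)]
        rw [map_mul, map_mul, map_pow, map_pow] at h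
        have h1 : w β ^ j = w β ^ (j - i) * w β ^ i := by
          rw [← pow_add]; congr 1; omega
        rw [h1] at h
        apply mul_right_cancel₀ (pow_ne_zero i hwβ0)
        rw [h]
        exact mul_right_comm _ _ _ |>.trans (by rw [mul_comm (w β ^ (j - i) * w β ^ i)])
      rcases lt_or_gt_of_ne hij with hlt | hlt
      · exact key i j (Finset.mem_range.1 hi) (Finset.mem_range.1 hj) hlt hqi hqj h
      · exact key j i (Finset.mem_range.1 hj) (Finset.mem_range.1 hi) hlt hqj hqi h.symm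
  have hVK : Algebra.IsAlgebraic V K := by
    refine ⟨fun y => ?_⟩
    obtain ⟨P, hP, hPy⟩ := (Algebra.IsAlgebraic.isAlgebraic (R := F) y)
    refine ⟨P.map (inclusion hFV).toRingHom, ?_, ?_⟩
    · rwa [Ne, Polynomial.map_eq_zero]
    · rw [aeval_def, eval₂_map]
      exact hPy
  obtain ⟨ρ, hρV, hρ⟩ := hconj V hVK B (B.comap (s0 : K →+* K)) (by
    intro y hy
    rw [ValuationSubring.mem_comap, ← B.valuation_le_one_iff, ← B.valuation_le_one_iff]
    change w y ≤ 1 ↔ w (s0 y) ≤ 1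
    rw [hVal y hy])
  set g : Gal(K/k) := s0 * ρ with hg
  have hgF : g ∈ F.fixingSubgroup := by
    refine mul_mem hs0F ?_
    rw [ALG.mem_fs]
    exact fun y hy => ALG.mem_fs.1 hρV y (hFV hy)
  have hgβ : g β = algebraMap k K ζ * β := by
    rw [hg, AlgEquiv.mul_apply, ALG.mem_fs.1 hρV β hβV, hζ]
  have hgB : ∀ y : K, y ∈ B ↔ g y ∈ B := by
    intro y
    rw [hρ y, ValuationSubring.mem_comap]
    rfl
  have hgeB : ∀ n : ℕ, ∀ y : K, y ∈ B ↔ (g ^ n) y ∈ B := by
    intro n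
    induction n with
    | zero => intro y; simp
    | succ n ih =>
      intro y
      rw [pow_succ, AlgEquiv.mul_apply, ← ih (g y), ← hgB y]
  have hgeβ : ∀ n : ℕ, (g ^ n) β = algebraMap k K (ζ ^ n) * β := by
    intro n
    induction n with
    | zero => simp
    | succ n ih =>
      rw [pow_succ, AlgEquiv.mul_apply, hgβ, map_mul, AlgEquiv.commutes, ih, ← mul_assoc, ← map_mul,
        ← pow_succ']
  have hsz : (g ^ (e * N ^ s)) z = z := he g hgF hgB
  have hsf : (g ^ (e * N ^ s)) f = f := by rw [hf, map_pow, hsz]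
  have hsβ := hgeβ (e * N ^ s)
  have hζe : ζ ^ (e * N ^ s) ≠ 1 := by
    intro h
    have h0 : (ζ ^ N ^ s) ^ N = 1 := by rw [← pow_mul, ← pow_succ, ← hM, hζN]
    have h' : (ζ ^ N ^ s) ^ e = 1 := by rw [← pow_mul, mul_comm, h]
    have h1 := pow_gcd_eq_one.2 ⟨h', h0⟩
    rw [Nat.Coprime.gcd_eq_one heN, pow_one] at h1
    exact hζ1 h1
  have hζe0 : ζ ^ (e * N ^ s) ≠ 0 := pow_ne_zero _ hζ0
  have hsu : (g ^ (e * N ^ s)) u = algebraMap k K (ζ ^ (e * N ^ s))⁻¹ * u := by
    rw [hu, map_div₀, hsf, hsβ, map_inv₀]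
    have h1 : algebraMap k K (ζ ^ (e * N ^ s)) ≠ 0 := (_root_.map_ne_zero _).2 hζe0
    field_simp
  have hlt : w ((g ^ (e * N ^ s)) (u - algebraMap k K c0)) < 1 := by
    rw [hw, CopVal.lt_one_iff] at hc0u ⊢
    rcases hc0u with h | h
    · left
      rw [h, map_zero]
    · right
      rw [← map_inv₀, ← hgeB (e * N ^ s)]
      exact h
  rw [map_sub, AlgEquiv.commutes, hsu] at hlt
  have hdiff : w ((algebraMap k K ((ζ ^ (e * N ^ s))⁻¹ - 1)) * u) < 1 := by
    have h1 : algebraMap k K ((ζ ^ (e * N ^ s))⁻¹ - 1) * u =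
        (algebraMap k K (ζ ^ (e * N ^ s))⁻¹ * u - algebraMap k K c0) - (u - algebraMap k K c0) := by
      rw [map_sub, map_one]; ring
    rw [h1]
    exact (w.map_sub _ _).trans_lt (max_lt hlt hc0u)
  rw [map_mul, hwu, mul_one, hB1 _ (by
    rw [sub_ne_zero]
    intro h
    apply hζe
    rw [← inv_inv (ζ ^ (e * N ^ s)), h, inv_one])] at hdiff
  exact lt_irrefl _ hdiff

/-- as `exists_coprime_valS`, with the hypothesis only for `g` in inertia groups -/
theorem exists_coprime_valR {k K : Type*} [Field k] [IsAlgClosed k] [Field K] [IsAlgClosed K]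
    [Algebra k K] {n : ℕ} {x : Fin n → K} (hx : IsTranscendenceBasis k x) (B : ValuationSubring K)
    (hB1 : ∀ c : k, c ≠ 0 → B.valuation (algebraMap k K c) = 1)
    (hB3 : ∀ z : K, B.valuation z = 1 → ∃ c : k, c ≠ 0 ∧ B.valuation (z - algebraMap k K c) < 1)
    (N : ℕ) (hN : N.Prime) (hNk : (N : k) ≠ 0) (s : ℕ) {z : K} (hz0 : z ≠ 0)
    (hz : z ∈ ramS N s (IntermediateField.adjoin k (Set.range x))) :
    ∃ c : ℕ, Nat.Coprime c N ∧
      ∃ b ∈ IntermediateField.adjoin k (Set.range x),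
        B.valuation z ^ (c * N ^ s) = B.valuation b := by
  obtain ⟨p, hp⟩ := ExpChar.exists k
  haveI : Algebra.IsAlgebraic (IntermediateField.adjoin k (Set.range x)) K := hx.isAlgebraic_field
  obtain ⟨e, he, hez⟩ := mem_ramS.1 hz
  have hc : ∀ c : k, algebraMap k K c ∈ B := by
    intro c
    rw [← B.valuation_le_one_iff]
    by_cases h0 : c = 0
    · rw [h0, map_zero, map_zero]
      exact zero_le_one
    · rw [hB1 c h0]
  refine CopValR.main (fun V hV B B' h => ?_) _ B hB1 hB3 N hN hNk s hz0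
    ⟨e, he, fun g hgF hgB => hez g ⟨hgF, B, hc, fun b hb => ?_⟩⟩
  · refine exists_conj_val p V ?_ B B' h
    rw [eq_top_iff]
    intro y _
    rw [ALG.mem_ac]
    exact hV.isAlgebraic y
  · have hlt : ∀ y : K, B.valuation y < 1 → B.valuation (g y) < 1 := by
      intro y hy
      rw [CopVal.lt_one_iff] at hy ⊢
      rcases hy with h | h
      · left
        rw [h, map_zero]
      · right
        rw [← map_inv₀, ← hgB]
        exact h
    rcases lt_or_eq_of_le ((B.valuation_le_one_iff b).2 hb) with h | h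
    · exact (B.valuation.map_sub _ _).trans_lt (max_lt (hlt b h) h)
    · obtain ⟨c, -, hc1⟩ := hB3 b h
      have h1 : g b - b = g (b - algebraMap k K c) - (b - algebraMap k K c) := by
        rw [map_sub, AlgEquiv.commutes]; ring
      rw [h1]
      exact (B.valuation.map_sub _ _).trans_lt (max_lt (hlt _ hc1) hc1)

end RS
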