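import Pool.Agent.H20.RU.MovS
import Pool.Agent.H20.RU.Val
import Pool.Agent.H20.RU.PriB
import Pool.Agent.H20.RT.Fin

/-!
The final theorems, over the compositum of the `[t_1, …, t_r]` with `t_i ∈ F_s` (bounded
ramification).
-/

set_option linter.style.haveILetI false

namespace RS

open Polynomial IntermediateField

variable {k K : Type*} [Field k] [Field K] [Algebra k K]
variable {m n : ℕ} {x : Fin n → K} {y w : Fin m → K} (hmn : m ≤ n) {N : ℕ}

theorem stb_ramS [IsAlgClosed k] (hN : N.Prime) {x x' : Fin n → K} (s : ℕ)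
    (hxx' : ∀ l, x' l ^ (N ^ s) = x l) : Stb x' (ramS N s (adjoin k (Set.range x))) :=
  ⟨(stb_priS hN s hxx').le.trans (priS_le_ramS N s _), fun _ hg _ hz =>
    ramS_stable (fixingSubgroup_antitone (F_le_of_pow hxx') hg) hz⟩

theorem indep_ramS [IsAlgClosed k] [IsAlgClosed K] (hx : IsTranscendenceBasis k x)
    (hN : N.Prime) (hNk : (N : k) ≠ 0) (s : ℕ) {x' : Fin n → K}
    (hxx' : ∀ l, x' l ^ (N ^ s) = x l) :
    IndepI hmn x' (ramS N s (adjoin k (Set.range x))) N := by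
  obtain ⟨B, hB1, hB2, hB3⟩ := exists_val_res (k := k) hx
  have hN1 : 1 ≤ N ^ s := Nat.one_le_pow _ _ hN.pos
  intro Q g h hQ hh hg0 hh0 heq
  refine indep_of_pow hN1 ?_
  refine indep_of_kummer_each hx.1 B hB1 hB2 N (Fin.castLE hmn) (Fin.castLE_injective hmn) hN Q hQ
    (fun j => g j ^ N ^ s) (fun j => h j ^ N ^ s) (fun j => pow_ne_zero _ (hg0 j))
    (fun j => pow_ne_zero _ (hh0 j)) (fun j => ?_) (fun j => ?_)
  · obtain ⟨c, hc, b, hb, hcb⟩ := exists_coprime_valR hx B hB1 hB3 N hN hNk s (hh0 j) (hh j)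
    refine ⟨c, hc, b, hb, ?_⟩
    rw [← hcb, map_pow, ← pow_mul, mul_comm]
  · have h1 : x (Fin.castLE hmn j) ^ Q j = (x' (Fin.castLE hmn j) ^ Q j) ^ N ^ s := by
      rw [← hxx', ← pow_mul, ← pow_mul, mul_comm]
    rw [h1, heq j, mul_pow, ← pow_mul, ← pow_mul, mul_comm (N ^ s) N]

/-- rotations over `F_s` -/
theorem hasRot_ramS [IsAlgClosed k] [IsAlgClosed K] (hx : IsTranscendenceBasis k x) {r : ℕ}
    (hr : r < m) (hN : N.Prime) (hNk : (N : k) ≠ 0) (s : ℕ) {x' : Fin n → K}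
    (hxx' : ∀ l, x' l ^ (N ^ s) = x l) (hy' : ∀ j, y j ^ N = x' (Fin.castLE hmn j))
    (hw : ∀ j, w j ^ N = 1 + y j) :
    HasRot k (ramS N s (adjoin k (Set.range x))) N r (∏ j, w j) := by
  obtain ⟨p, hp⟩ := ExpChar.exists k
  have hNp : Nat.Coprime N p := coprime_of_ne_zero (k := k) p hNk
  intro u hu
  exact exists_g_stb hmn (basis_of_pow hx hxx') p hN.two_le hNp hN hNp hy' hw hr
    (stb_ramS hN s hxx') (indep_ramS hmn hx hN hNk s hxx') u hu
    (fun i c hc0 hc1 hcN => exists_h_ramS hN hNk hx s hxx' (Fin.castLE hmn i) (hy' i) hu hc0 hc1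
      hcN)

/-- FINAL THEOREM -/
theorem main_ramS [IsAlgClosed k] [IsAlgClosed K] (hx : IsTranscendenceBasis k x) {r : ℕ}
    (hr1 : 1 ≤ r) (hr : r < m) (hN : N.Prime) (hNk : (N : k) ≠ 0) (s : ℕ)
    (hy : ∀ j, y j ^ (N ^ (s + 1)) = x (Fin.castLE hmn j)) (hw : ∀ j, w j ^ N = 1 + y j)
    (j₀ : Fin m)
    {E : Type*} [Field E] [Algebra k E] [Algebra (RatFunc k) E]
    [IsScalarTower k (RatFunc k) E] [FiniteDimensional (RatFunc k) E] [IsGalois (RatFunc k) E]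
    (hcN : Nat.Coprime (Module.finrank (RatFunc k) E) N) :
    (∃ τ : E →ₐ[k] K, τ (algebraMap (RatFunc k) E RatFunc.X) = y j₀ ^ N + ∏ j, w j) ∧
    ∀ τ : E →ₐ[k] K, τ (algebraMap (RatFunc k) E RatFunc.X) = y j₀ ^ N + ∏ j, w j →
      τ (algebraMap (RatFunc k) E RatFunc.X) ∈ ALG.M k x 1 2 ∧
      (∀ v : E, τ v ∈ ALG.M k x 1 3 ∧ τ v ∈ ALG.M k x m 2) ∧
      (∀ v : E, τ v ∈ comp (ramS N s (adjoin k (Set.range x))) r ↔
        v ∈ Set.range (algebraMap (RatFunc k) E)) ∧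
      ∀ σ : Gal(E/RatFunc k), ∃ g ∈ (comp (ramS N s (adjoin k (Set.range x))) r).fixingSubgroup,
        ∀ v, τ (σ v) = g (τ v) := by
  obtain ⟨x', hxx', hy'⟩ := exists_x' hmn hN s hy
  have hx' := basis_of_pow hx hxx'
  obtain ⟨hex, -⟩ := main_all (E := E) hmn hx' hr1 hr hN.two_le hNk hN hNk hcN hcN hy' hw j₀
  rw [← hy' j₀] at hex
  refine ⟨hex, fun τ hτ => ?_⟩
  obtain ⟨hT1, hT2⟩ := T_mem (k := k) hmn hN s hy hw j₀
  obtain ⟨h3, h4⟩ := main_comp_stb (E := E) hmn hx' hr1 hr hN.two_le hNk hN hNk hcN hcN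
    (stb_ramS hN s hxx') (hasRot_ramS hmn hx hr hN hNk s hxx' hy' hw) hy' hw j₀ τ
    (by rw [← hy' j₀]; exact hτ)
  refine ⟨by rw [hτ]; exact hT1, fun v => ?_, h3, h4⟩
  exact mem_of_alg hmn hT1 hT2 (isAlgebraic_tau τ (by rw [hτ]; exact mem_adjoin_simple_self k _) v)

include hmn in
/-- SANDWICH over `F_s` -/
theorem sandwich_ramS [IsAlgClosed k] [IsAlgClosed K] (hx : IsTranscendenceBasis k x) {r : ℕ}
    (hr1 : 1 ≤ r) (hr : r < m) {d q : ℕ} (hq : q.Prime) (hdq : d < q) (hq5 : 5 ≤ q) (hqN : q < N)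
    (hN : N.Prime) (hNk : (N : k) ≠ 0) (s : ℕ) :
    ∃ e : K, e ∈ ALG.M k x 1 3 ∧ e ∈ ALG.M k x m 2 ∧
      ∀ L : IntermediateField k K,
        ALG.Tower d (comp (ramS N s (adjoin k (Set.range x))) r) L → e ∉ L := by
  have hpos : 0 < N ^ (s + 1) := Nat.pow_pos hN.pos
  have hyex : ∀ j : Fin m, ∃ y : K, y ^ (N ^ (s + 1)) = x (Fin.castLE hmn j) := fun j =>
    IsAlgClosed.exists_pow_nat_eq _ hpos
  choose y hy using hyex
  have hwex : ∀ j : Fin m, ∃ w : K, w ^ N = 1 + y j := fun j =>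
    IsAlgClosed.exists_pow_nat_eq _ hN.pos
  choose w hw using hwex
  let j₀ : Fin m := ⟨0, by omega⟩
  let j₁ : Fin m := ⟨1, by omega⟩
  have hj : j₁ ≠ j₀ := by
    intro h
    have := congrArg Fin.val h
    simp [j₀, j₁] at this
  obtain ⟨x', hxx', hy'⟩ := exists_x' hmn hN s hy
  have hx' := basis_of_pow hx hxx'
  obtain ⟨e, he, hL⟩ := sandwich_stb hmn hx' hr1 hr hq hdq hq5 hqN hN hNk
    (stb_ramS hN s hxx') hy' hw (hasRot_ramS hmn hx hr hN hNk s hxx' hy' hw) hj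
  rw [← hy' j₀] at he
  obtain ⟨hT1, hT2⟩ := T_mem (k := k) hmn hN s hy hw j₀
  obtain ⟨h1, h2⟩ := mem_of_alg hmn hT1 hT2 he
  exact ⟨e, h1, h2, hL⟩

/-- `FR k x N s`: all `z ∈ K` such that, for some `e` prime to `N`, `g ^ (e * N ^ s)` fixes `z` for all
automorphisms `g` of `K` over `k(x)` in the inertia group of some valuation ring of `K` containing
`k` -/
def FR (k : Type*) [Field k] [Algebra k K] {n : ℕ} (x : Fin n → K) (N s : ℕ) :
    IntermediateField k K :=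
  ramS N s (adjoin k (Set.range x))

/-- `MR k x N s r`: the compositum of all `[t_1, …, t_r]` with `t_i ∈ FR k x N s` -/
noncomputable def MR (k : Type*) [Field k] [Algebra k K] {n : ℕ} (x : Fin n → K) (N s r : ℕ) :
    IntermediateField k K :=
  comp (FR k x N s) r

end RS
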