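import Pool.Agent.H20.RU.Pri
import Pool.Agent.H20.RT.Mov
import Pool.Agent.H20.RS.ResVal
import Pool.Agent.H20.RS.ConjVal

/-!
Rotations in inertia groups.
-/

set_option linter.style.haveILetI false

namespace RS

open Polynomial IntermediateField

open scoped IntermediateField.algebraAdjoinAdjoin in
/-- one transcendental element over which everything is algebraic -/
theorem basis_one {κ K : Type*} [Field κ] [Field K] [Algebra κ K] {b : K}
    (hb : Transcendental κ b) (halg : Algebra.IsAlgebraic κ⟮b⟯ K) :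
    IsTranscendenceBasis κ (fun _ : Fin 1 => b) := by
  have hr : Set.range (fun _ : Fin 1 => b) = {b} := by
    ext z; simp
  have hind : AlgebraicIndependent κ (fun _ : Fin 1 => b) := by
    rw [algebraicIndependent_unique_type_iff]
    exact hb
  rw [hind.isTranscendenceBasis_iff_isAlgebraic, hr]
  exact (IsFractionRing.comap_isAlgebraic_iff (A := Algebra.adjoin κ {b}) (K := κ⟮b⟯)
    (C := K)).2 halg

/-- values of polynomials -/
theorem val_poly {κ K : Type*} [Field κ] [Field K] [Algebra κ K] (B : ValuationSubring K)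
    (hB1 : ∀ c : κ, c ≠ 0 → B.valuation (algebraMap κ K c) = 1) {b : K}
    (hb : 1 < B.valuation b) {P : κ[X]} (hP : P ≠ 0) :
    B.valuation (aeval b P) = B.valuation b ^ P.natDegree := by
  haveI : B.valuation.IsTrivialOn κ := ⟨hB1⟩
  exact valuation_aeval_eq_valuation_X_pow_natDegree_of_one_lt_valuation_X b hb hP

/-- the base case: `K` over `κ` with `b` transcendental -/
theorem inr_base {κ K : Type*} [Field κ] [IsAlgClosed κ] [Field K] [IsAlgClosed K] [Algebra κ K]
    {b : K} (hbt : Transcendental κ b) (halg : Algebra.IsAlgebraic κ⟮b⟯ K) {ζ : κ} (hζ : ζ ≠ 0)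
    (γ₀ : Gal(K/κ)) (hγ₀ : γ₀ b = algebraMap κ K ζ * b) :
    ∃ γ : Gal(K/κ), γ b = algebraMap κ K ζ * b ∧ ∃ B : ValuationSubring K,
      (∀ c : κ, algebraMap κ K c ∈ B) ∧ (∀ z ∈ B, B.valuation (γ z - z) < 1) ∧
      1 < B.valuation b := by
  obtain ⟨B, hB1, hB2, hB3⟩ := exists_val_res (k := κ) (basis_one hbt halg)
  have hc : ∀ c : κ, algebraMap κ K c ∈ B := by
    intro c
    rw [← B.valuation_le_one_iff]
    by_cases h0 : c = 0
    · rw [h0, map_zero, map_zero]
      exact zero_le_one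
    · rw [hB1 c h0]
  -- `b` is at infinity
  let mo : MonomialOrder (Fin 1) := MonomialOrder.lex
  have hdX : mo.degree (MvPolynomial.X 0 : MvPolynomial (Fin 1) κ) = Finsupp.single 0 1 :=
    mo.degree_X
  have hd1 : mo.degree (1 : MvPolynomial (Fin 1) κ) = 0 := mo.degree_one
  have hX0 : (MvPolynomial.X 0 : MvPolynomial (Fin 1) κ) ≠ 0 := MvPolynomial.X_ne_zero 0
  have hb1 : 1 < B.valuation b := by
    rcases lt_trichotomy (B.valuation b) 1 with h | h | h
    · exfalso
      have hdeg : mo.degree (MvPolynomial.X 0 + 1 : MvPolynomial (Fin 1) κ) =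
          Finsupp.single 0 1 := by
        rw [mo.degree_add_of_lt, hdX]
        rw [hdX, hd1, map_zero]
        refine lt_of_le_of_ne (mo.zero_le _) (fun h0 => ?_)
        have h1 : (Finsupp.single 0 1 : Fin 1 →₀ ℕ) = 0 :=
          mo.toSyn.injective (by rw [← h0, map_zero])
        have := congrArg (fun f => f 0) h1
        simp at this
      have hne : (MvPolynomial.X 0 + 1 : MvPolynomial (Fin 1) κ) ≠ 0 := by
        intro h0
        rw [h0, mo.degree_zero] at hdeg
        have := congrArg (fun f => f 0) hdeg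
        simp at this
      have h1 := hB2 (MvPolynomial.X 0 + 1) 1 hne one_ne_zero (by
        rw [map_add, map_one, MvPolynomial.aeval_X, map_one, add_comm]
        exact Valuation.map_one_add_of_lt _ h)
      have h2 : mo.degree (MvPolynomial.X 0 + 1 : MvPolynomial (Fin 1) κ) =
        mo.degree (1 : MvPolynomial (Fin 1) κ) := h1
      rw [hdeg, hd1] at h2
      have := congrArg (fun f => f 0) h2
      simp at this
    · exfalso
      have h1 := hB2 (MvPolynomial.X 0) 1 hX0 one_ne_zero (by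
        rw [MvPolynomial.aeval_X, map_one, map_one]
        exact h)
      have h2 : mo.degree (MvPolynomial.X 0 : MvPolynomial (Fin 1) κ) =
        mo.degree (1 : MvPolynomial (Fin 1) κ) := h1
      rw [hdX, hd1] at h2
      have := congrArg (fun f => f 0) h2
      simp at this
    · exact h
  have hbζ : B.valuation (algebraMap κ K ζ * b) = B.valuation b := by
    rw [map_mul, hB1 ζ hζ, one_mul]
  -- `γ₀` preserves the values on `κ(b)`
  have hpoly : ∀ P : κ[X], B.valuation (γ₀ (aeval b P)) = B.valuation (aeval b P) := by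
    intro P
    by_cases hP : P = 0
    · rw [hP, map_zero, map_zero]
    · have h1 : γ₀ (aeval b P) = aeval (algebraMap κ K ζ * b) P := by
        rw [← hγ₀]
        exact (aeval_algHom_apply (γ₀ : K →ₐ[κ] K) b P).symm
      rw [h1, val_poly B hB1 (by rw [hbζ]; exact hb1) hP, hbζ, val_poly B hB1 hb1 hP]
  have hrat : ∀ z ∈ κ⟮b⟯, B.valuation (γ₀ z) = B.valuation z := by
    intro z hz
    obtain ⟨P, Q, rfl⟩ := IntermediateField.mem_adjoin_simple_iff κ z |>.1 hz
    rw [map_div₀, map_div₀, hpoly, hpoly, map_div₀]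
  obtain ⟨p, hp⟩ := ExpChar.exists κ
  have htop : ALG.ac κ⟮b⟯ = ⊤ := by
    rw [eq_top_iff]
    intro z _
    exact ALG.mem_ac.2 (halg.isAlgebraic z)
  obtain ⟨ρ, hρV, hρ⟩ := exists_conj_val p κ⟮b⟯ htop B (B.comap (γ₀ : K →+* K)) (by
    intro z hz
    rw [ValuationSubring.mem_comap, ← B.valuation_le_one_iff, ← B.valuation_le_one_iff]
    change B.valuation z ≤ 1 ↔ B.valuation (γ₀ z) ≤ 1
    rw [hrat z hz])
  have hB : ∀ z : K, z ∈ B ↔ (γ₀ * ρ) z ∈ B := by
    intro z
    rw [hρ z, ValuationSubring.mem_comap]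
    rfl
  have hlt : ∀ z : K, B.valuation z < 1 → B.valuation ((γ₀ * ρ) z) < 1 := by
    intro z hz
    rw [CopVal.lt_one_iff] at hz ⊢
    rcases hz with h | h
    · left
      rw [h, map_zero]
    · right
      rw [← map_inv₀, ← hB]
      exact h
  refine ⟨γ₀ * ρ, ?_, B, hc, fun z hz => ?_, hb1⟩
  · rw [AlgEquiv.mul_apply, ALG.mem_fs.1 hρV b (mem_adjoin_simple_self κ b), hγ₀]
  · rcases lt_or_eq_of_le ((B.valuation_le_one_iff z).2 hz) with h | h
    · exact (B.valuation.map_sub _ _).trans_lt (max_lt (hlt z h) h)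
    · obtain ⟨c, -, hc1⟩ := hB3 z h
      have h1 : (γ₀ * ρ) z - z = (γ₀ * ρ) (z - algebraMap κ K c) - (z - algebraMap κ K c) := by
        rw [map_sub, AlgEquiv.commutes]; ring
      rw [h1]
      exact (B.valuation.map_sub _ _).trans_lt (max_lt (hlt _ hc1) hc1)

variable {k K : Type*} [Field k] [Field K] [Algebra k K]

/-- a rotation of `b` over `Ω` in the inertia group of a valuation ring with `b` at infinity -/
theorem exists_inert_rot [IsAlgClosed k] [IsAlgClosed K] (Ω : IntermediateField k K) {b : K}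
    (hΩ : ALG.ac Ω = Ω) (hb : b ∉ Ω) (htop : ALG.ac (Ω ⊔ k⟮b⟯) = ⊤) {ζ : k} (hζ : ζ ≠ 0) :
    ∃ γ ∈ Ω.fixingSubgroup, γ b = algebraMap k K ζ * b ∧ ∃ B : ValuationSubring K,
      (∀ c : k, algebraMap k K c ∈ B) ∧ (∀ z ∈ B, B.valuation (γ z - z) < 1) ∧
      1 < B.valuation b := by
  have hb' : b ∉ ALG.ac Ω := by rw [hΩ]; exact hb
  haveI : IsAlgClosed Ω := by
    have h1 : IsAlgClosed (algebraicClosure Ω K) :=
      (algebraicClosure.isAlgClosure Ω K).isAlgClosed
    have h2 : ∀ z : K, z ∈ algebraicClosure Ω K ↔ z ∈ Ω := by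
      intro z
      have h3 : z ∈ ALG.ac Ω ↔ z ∈ algebraicClosure Ω K := Iff.rfl
      rw [← h3, hΩ]
    have e : algebraicClosure Ω K ≃+* Ω :=
      { toFun := fun z => ⟨z.1, (h2 z.1).1 z.2⟩
        invFun := fun z => ⟨z.1, (h2 z.1).2 z.2⟩
        left_inv := fun z => rfl
        right_inv := fun z => rfl
        map_mul' := fun a b => rfl
        map_add' := fun a b => rfl }
    exact IsAlgClosed.of_ringEquiv _ _ e
  obtain ⟨γ₀, hγ₀Ω, hγ₀b⟩ := exists_rot_aut Ω hb' htop hζ
  let γ₁ : Gal(K/Ω) := AlgEquiv.ofRingEquiv (f := (γ₀ : K ≃+* K)) (fun f =>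
    ALG.mem_fs.1 hγ₀Ω f.1 f.2)
  have hγ₁ : γ₁ b = algebraMap Ω K (algebraMap k Ω ζ) * b := hγ₀b
  obtain ⟨γ, hγb, B, hB1, hB2, hB3⟩ := inr_base (κ := Ω) (ALG.tr_of_notMem hb')
    (ALG.alg_of_ac htop) (ζ := algebraMap k Ω ζ) ((_root_.map_ne_zero _).2 hζ) γ₁ hγ₁
  refine ⟨γ.restrictScalars k, ALG.restrict_mem_fs γ, hγb, B, fun c => ?_, hB2, hB3⟩
  exact hB1 (algebraMap k Ω c)

end RS
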