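import Pool.Agent.H20.RU.Pri
import Pool.Agent.H20.RT.Mov

/-!
The mover for `N = 2`, from two elements of inertia groups.
-/

set_option linter.style.haveILetI false

namespace RS

open Polynomial IntermediateField

variable {k K : Type*} [Field k] [Field K] [Algebra k K]

private theorem pow_small_Two (B : ValuationSubring K) {γ : Gal(K/k)}
    (hB : ∀ z ∈ B, B.valuation (γ z - z) < 1) (m : ℕ) :
    ∀ z ∈ B, B.valuation ((γ ^ m) z - z) < 1 := by
  induction m with
  | zero =>
    intro z _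
    rw [pow_zero, AlgEquiv.one_apply, sub_self, map_zero]
    exact zero_lt_one
  | succ m ih =>
    intro z hz
    have h1 := hB z hz
    have h2 : γ z ∈ B := by
      have h3 : γ z = (γ z - z) + z := by ring
      rw [h3]
      exact add_mem ((B.valuation_le_one_iff _).1 h1.le) hz
    have h3 := ih (γ z) h2
    have h4 : (γ ^ (m + 1)) z - z = ((γ ^ m) (γ z) - γ z) + (γ z - z) := by
      rw [pow_succ, AlgEquiv.mul_apply]
      ring
    rw [h4]
    exact Valuation.map_add_lt _ h3 h1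

private theorem val_two_Two (h2 : (2 : k) ≠ 0) (B : ValuationSubring K)
    (hc : ∀ c : k, algebraMap k K c ∈ B) : B.valuation (2 : K) = 1 := by
  have e1 : algebraMap k K 2 = 2 := map_ofNat _ 2
  have h3 : B.valuation (2 : K) ≤ 1 := by
    rw [← e1]
    exact (B.valuation_le_one_iff _).2 (hc 2)
  have h4 : B.valuation ((2 : K)⁻¹) ≤ 1 := by
    rw [← e1, ← map_inv₀ (algebraMap k K)]
    exact (B.valuation_le_one_iff _).2 (hc _)
  have h5 : (2 : K) ≠ 0 := by
    rw [← e1]
    exact (_root_.map_ne_zero _).2 h2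
  have h6 : B.valuation (2 : K) ≠ 0 := (Valuation.ne_zero_iff _).2 h5
  rw [map_inv₀] at h4
  refine le_antisymm h3 ?_
  rwa [inv_le_one₀ (zero_lt_iff.2 h6)] at h4

private theorem val_one_Two {B : ValuationSubring K} {z : K} (h : B.valuation (z ^ 2) = 1) :
    B.valuation z = 1 := by
  rw [map_pow] at h
  rcases lt_trichotomy (B.valuation z) 1 with h1 | h1 | h1
  · exact absurd h (pow_lt_one₀ zero_le h1 two_ne_zero).ne
  · exact h1
  · exact absurd h (one_lt_pow₀ h1 two_ne_zero).ne'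

/-- an element of the inertia group does not change the sign of a unit -/
private theorem fix_Two (B : ValuationSubring K) (hB2 : B.valuation (2 : K) = 1) {g : Gal(K/k)}
    {y : K} (hy : B.valuation y = 1) (hg : B.valuation (g y - y) < 1) (hpm : g y = y ∨ g y = -y) :
    g y = y := by
  rcases hpm with h | h
  · exact h
  · exfalso
    have h1 : g y - y = -(2 * y) := by rw [h]; ring
    rw [h1, Valuation.map_neg, map_mul, hB2, hy, mul_one] at hg
    exact lt_irrefl _ hg

/-- the mover, `N = 2`: `h = γ₀ ^ M * γ₁ ^ M` -/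
theorem exists_h_two [IsAlgClosed k] [IsAlgClosed K] (h2 : (2 : k) ≠ 0) (Ω : IntermediateField k K)
    {b : K} {r : ℕ} (u : Fin r → K) (M : ℕ) {γ₀ γ₁ : Gal(K/k)} (h0Ω : γ₀ ∈ Ω.fixingSubgroup)
    (h1Ω : γ₁ ∈ Ω.fixingSubgroup) (h0u : ∀ i, (γ₀ ^ M) (u i) = u i)
    (h1u : ∀ i, (γ₁ ^ M) (u i) = u i) (h0b : (γ₀ ^ M) b = - b) (h1b : (γ₁ ^ M) b = - b)
    (B₀ B₁ : ValuationSubring K) (hc0 : ∀ c : k, algebraMap k K c ∈ B₀)
    (hc1 : ∀ c : k, algebraMap k K c ∈ B₁)
    (hB0 : ∀ z ∈ B₀, B₀.valuation (γ₀ z - z) < 1) (hB1 : ∀ z ∈ B₁, B₁.valuation (γ₁ z - z) < 1)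
    (hb0 : B₀.valuation b < 1) (hb1 : 1 < B₁.valuation b) :
    ∃ h ∈ (Ω ⊔ k⟮b⟯).fixingSubgroup, (∀ i, h (u i) = u i) ∧
      ∀ z : K, z ^ 2 = aeval b (rot (-1) (1 + X : k[X]) * (1 + X) ^ (2 - 1)) → h z ≠ z := by
  have hbne : b ≠ 0 := by
    rintro rfl
    rw [map_zero] at hb1
    exact absurd hb1 (not_lt.2 zero_le_one)
  refine ⟨γ₀ ^ M * γ₁ ^ M, ?_, ?_, ?_⟩
  · rw [fixingSubgroup_sup, Subgroup.mem_inf]
    refine ⟨mul_mem (pow_mem h0Ω M) (pow_mem h1Ω M), ?_⟩
    rw [ALG.mem_fs_adjoin]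
    rintro _ rfl
    rw [AlgEquiv.mul_apply, h1b, map_neg, h0b, neg_neg]
  · intro i
    rw [AlgEquiv.mul_apply, h1u, h0u]
  · intro z hz hcon
    have hz2 : z ^ 2 = 1 - b ^ 2 := by
      rw [hz, map_mul, aeval_rot]
      simp only [map_add, map_one, aeval_X, map_neg, map_pow]
      ring
    have hpm : ∀ g : Gal(K/k), g b = -b → g z = z ∨ g z = -z := by
      intro g hg
      have h3 : (g z) ^ 2 = z ^ 2 := by
        rw [← map_pow, hz2, map_sub, map_one, map_pow, hg]
        ring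
      exact sq_eq_sq_iff_eq_or_eq_neg.1 h3
    -- at `B₀`
    have hv0 : B₀.valuation z = 1 := by
      apply val_one_Two
      rw [hz2]
      apply Valuation.map_one_sub_of_lt
      rw [map_pow]
      exact pow_lt_one₀ zero_le hb0 two_ne_zero
    have hf0 : (γ₀ ^ M) z = z := by
      refine fix_Two B₀ (val_two_Two h2 B₀ hc0) hv0 ?_ (hpm _ h0b)
      exact pow_small_Two B₀ hB0 M z ((B₀.valuation_le_one_iff _).1 hv0.le)
    -- at `B₁`
    have hbi : B₁.valuation b⁻¹ < 1 := by
      rw [map_inv₀]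
      exact inv_lt_one_of_one_lt₀ hb1
    have hv1 : B₁.valuation (z * b⁻¹) = 1 := by
      apply val_one_Two
      have h3 : (z * b⁻¹) ^ 2 = -(1 - b⁻¹ ^ 2) := by
        rw [mul_pow, hz2]
        field_simp
        ring
      rw [h3, Valuation.map_neg]
      apply Valuation.map_one_sub_of_lt
      rw [map_pow]
      exact pow_lt_one₀ zero_le hbi two_ne_zero
    have hf1 : (γ₁ ^ M) (z * b⁻¹) = z * b⁻¹ := by
      refine fix_Two B₁ (val_two_Two h2 B₁ hc1) hv1 ?_ ?_
      · exact pow_small_Two B₁ hB1 M _ ((B₁.valuation_le_one_iff _).1 hv1.le)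
      · rw [map_mul, map_inv₀, h1b]
        rcases hpm _ h1b with h | h
        · right
          rw [h, inv_neg]
          ring
        · left
          rw [h, inv_neg]
          ring
    have hf1' : (γ₁ ^ M) z = -z := by
      have h3 : z = z * b⁻¹ * b := by field_simp
      calc (γ₁ ^ M) z = (γ₁ ^ M) (z * b⁻¹ * b) := by rw [← h3]
        _ = z * b⁻¹ * (-b) := by rw [map_mul, hf1, h1b]
        _ = -z := by field_simp
    rw [AlgEquiv.mul_apply, hf1', map_neg, hf0] at hcon
    have hz0 : z ≠ 0 := by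
      rintro rfl
      rw [map_zero] at hv0
      exact zero_ne_one hv0
    have h3 : (2 : K) ≠ 0 := by
      have e1 : algebraMap k K 2 = 2 := map_ofNat _ 2
      rw [← e1]
      exact (_root_.map_ne_zero _).2 h2
    have h4 : 2 * z = 0 := by linear_combination -hcon
    rcases mul_eq_zero.1 h4 with h5 | h5
    · exact h3 h5
    · exact hz0 h5

end RS
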