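import Pool.Agent.H20.RU.Inr
import Pool.Agent.H20.RU.Two
import Pool.Agent.H20.RT.MovS

/-!
The mover over `F_s` (bounded ramification).
-/

set_option linter.style.haveILetI false

namespace RS

open Polynomial IntermediateField

variable {k K : Type*} [Field k] [Field K] [Algebra k K]

/-- the mover, `N ≥ 3`, from one automorphism -/
theorem exists_h_odd' [IsAlgClosed k] [IsAlgClosed K] (p : ℕ) [ExpChar k p] {N : ℕ} (hN : 3 ≤ N)
    (hNp : Nat.Coprime N p) (F Ω : IntermediateField k K) {b : K} (hb : b ∉ ALG.ac Ω)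
    (htop : ALG.ac (Ω ⊔ k⟮b⟯) = ⊤) (hF : F ≤ Ω ⊔ k⟮b⟯) {r : ℕ} (u : Fin r → K) (M : ℕ)
    {γ : Gal(K/k)} (hM : ∀ h ∈ F.fixingSubgroup, ∀ i, (γ ^ M) (h (u i)) = h (u i))
    (hγΩ : γ ∈ Ω.fixingSubgroup) {ζ : k}
    (hγb : (γ ^ M) b = algebraMap k K ζ * b) (hζ0 : ζ ≠ 0) (hζ1 : ζ ≠ 1) {c : k} (hc0 : c ≠ 0)
    (hc1 : c ≠ 1) :
    ∃ h ∈ (Ω ⊔ k⟮b⟯).fixingSubgroup, (∀ i, h (u i) = u i) ∧
      ∀ z : K, z ^ N = aeval b (rot c (1 + X : k[X]) * (1 + X) ^ (N - 1)) → h z ≠ z := by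
  set R : k[X] := rot c (1 + X : k[X]) * (1 + X) ^ (N - 1) with hR
  obtain ⟨hR0, hRm⟩ := mult_aux₂ (N := N) hc0 hc1 hζ0 hζ1 hN
  obtain ⟨a, haΩ, hab, haz⟩ := exists_kummer_mover p (q := N) (by omega)
    (fun a => Nat.Coprime.pow_right a hNp) Ω hb htop _ hR0 _ hRm
  have haT : a ∈ (Ω ⊔ k⟮b⟯).fixingSubgroup := by
    rw [fixingSubgroup_sup, Subgroup.mem_inf]
    exact ⟨haΩ, ALG.mem_fs_adjoin.2 (by rintro _ rfl; exact hab)⟩
  have haF : a ∈ F.fixingSubgroup := fixingSubgroup_antitone hF haT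
  set g : Gal(K/k) := γ ^ M with hg
  have hgΩ : g ∈ Ω.fixingSubgroup := pow_mem hγΩ M
  have hgu : ∀ i, g (u i) = u i := fun i => hM 1 (one_mem _) i
  have hgau : ∀ i, g (a (u i)) = a (u i) := fun i => hM a haF i
  refine ⟨a⁻¹ * g⁻¹ * a * g, ?_, ?_, ?_⟩
  · rw [fixingSubgroup_sup, Subgroup.mem_inf]
    refine ⟨mul_mem (mul_mem (mul_mem (inv_mem haΩ) (inv_mem hgΩ)) haΩ) hgΩ, ?_⟩
    rw [ALG.mem_fs_adjoin]
    rintro _ rfl
    change a⁻¹ (g⁻¹ (a (g _))) = _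
    rw [hγb, map_mul, AlgEquiv.commutes, hab, PX.inv_apply_eq hγb, PX.inv_apply_of_fix hab]
  · intro i
    change a⁻¹ (g⁻¹ (a (g _))) = _
    rw [hgu, PX.inv_apply_of_fix (hgau i)]
    exact PX.inv_apply_eq rfl
  · intro z hz hcon
    have h1 : a (g z) = g (a z) := by
      have h2 : a⁻¹ (g⁻¹ (a (g z))) = z := hcon
      have h3 := congrArg a h2
      rw [PX.apply_inv] at h3
      have h4 := congrArg g h3
      rwa [PX.apply_inv] at h4
    have hzN : a (z ^ N) = z ^ N := by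
      rw [hz]
      have h2 : aeval b R ∈ Ω ⊔ k⟮b⟯ :=
        (le_sup_right : k⟮b⟯ ≤ _) (ALG.aeval_mem_simple b R)
      exact ALG.mem_fs.1 haT _ h2
    obtain ⟨χ, hχ⟩ := ALG.exists_algebraMap_of_pow (k := k) (a := a z) (b := z) N (by omega)
      (by rw [← map_pow, hzN])
    have h2 : a (g z) = algebraMap k K χ * g z := by
      rw [h1, hχ, map_mul, AlgEquiv.commutes]
    have hgz : (g z) ^ N = aeval b (rot ζ R) := by
      rw [← map_pow, hz, aeval_rot, ← hγb]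
      exact (aeval_algHom_apply (g : K →ₐ[k] K) b R).symm
    refine haz (g z * z ^ (N - 1)) ?_ ?_
    · rw [map_mul, map_pow, ← hgz, ← hz, mul_pow, ← pow_mul, ← pow_mul, mul_comm N (N - 1)]
    · rw [map_mul, map_pow, h2, hχ, mul_pow]
      have h3 : algebraMap k K χ * g z * ((algebraMap k K χ) ^ (N - 1) * z ^ (N - 1)) =
          (algebraMap k K χ) ^ N * (g z * z ^ (N - 1)) := by
        have h4 : (algebraMap k K χ) ^ N = algebraMap k K χ * (algebraMap k K χ) ^ (N - 1) := by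
          rw [← pow_succ']; congr 1; omega
        rw [h4]; ring
      rw [h3]
      by_cases hz0 : z = 0
      · rw [hz0, zero_pow (by omega), mul_zero, mul_zero]
      · have h5 : (algebraMap k K χ) ^ N = 1 := by
          have h6 : (a z) ^ N = z ^ N := by rw [← map_pow, hzN]
          rw [hχ, mul_pow] at h6
          exact mul_right_cancel₀ (pow_ne_zero N hz0) (by rw [h6, one_mul])
        rw [h5, one_mul]

/-- the mover over `F_s` -/
theorem exists_h_ramS [IsAlgClosed k] [IsAlgClosed K] {N : ℕ} (hN : N.Prime)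
    (hNk : (N : k) ≠ 0) {n : ℕ} {x x' : Fin n → K} (hx : IsTranscendenceBasis k x) (s : ℕ)
    (hxx' : ∀ l, x' l ^ (N ^ s) = x l) (i : Fin n) {b : K} (hb : b ^ N = x' i) {r : ℕ}
    {u : Fin r → K} (hu : ∀ j, u j ∈ ramS N s (adjoin k (Set.range x))) {c : k} (hc0 : c ≠ 0)
    (hc1 : c ≠ 1) (hcN : c ^ N = 1) :
    ∃ h ∈ (PX.Om k x' i ⊔ k⟮b⟯).fixingSubgroup, (∀ j, h (u j) = u j) ∧
      ∀ z : K, z ^ N = aeval b (rot c (1 + X : k[X]) * (1 + X) ^ (N - 1)) → h z ≠ z := by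
  obtain ⟨p, hp⟩ := ExpChar.exists k
  have hNp : Nat.Coprime N p := coprime_of_ne_zero (k := k) p hNk
  have hx' : IsTranscendenceBasis k x' := basis_of_pow hx hxx'
  set Ω := PX.Om k x' i with hΩ
  have hbn : b ∉ Ω := PX.b_notMem_Om hx' hb
  have hbn' : b ∉ ALG.ac Ω := by
    rw [hΩ, PX.ac_Om]
    exact hbn
  have htop : ALG.ac (Ω ⊔ k⟮b⟯) = ⊤ := PX.Om_top hx' hb
  have hF : adjoin k (Set.range x) ≤ Ω ⊔ k⟮b⟯ := (F_le_of_pow hxx').trans (PX.F_le_Om hb)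
  obtain ⟨e, heN, he⟩ := ramS_fin hu
  -- a primitive root of unity
  haveI : NeZero ((N ^ (s + 1) : ℕ) : k) := ⟨by rw [Nat.cast_pow]; exact pow_ne_zero _ hNk⟩
  obtain ⟨ζ, hζ⟩ := HasEnoughRootsOfUnity.exists_primitiveRoot k (N ^ (s + 1))
  have hζ0 : ζ ≠ 0 := by
    have h1 : 0 < N ^ (s + 1) := Nat.pow_pos hN.pos
    exact hζ.ne_zero h1.ne'
  -- rotations are over `F`
  have hrotF : ∀ γ : Gal(K/k), γ ∈ Ω.fixingSubgroup → γ b = algebraMap k K ζ * b →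
      γ ∈ (adjoin k (Set.range x)).fixingSubgroup := by
    intro γ hγΩ hγb
    rw [ALG.mem_fs_adjoin]
    rintro _ ⟨l, rfl⟩
    by_cases hl : l = i
    · rw [hl, ← hxx' i, ← hb, ← pow_mul, ← pow_succ', map_pow, hγb, mul_pow, ← map_pow,
        hζ.pow_eq_one, map_one, one_mul]
    · rw [← hxx' l, map_pow, ALG.mem_fs.1 hγΩ _ (PX.x_mem_Om hl)]
  have hrotl : ∀ γ : Gal(K/k), γ b = algebraMap k K ζ * b → ∀ l : ℕ,
      (γ ^ l) b = algebraMap k K (ζ ^ l) * b := by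
    intro γ hγb l
    induction l with
    | zero => simp
    | succ l ih =>
      rw [pow_succ', AlgEquiv.mul_apply, ih, map_mul, AlgEquiv.commutes, hγb, pow_succ, map_mul]
      ring
  have hζM : ζ ^ (e * N ^ s) ≠ 1 := by
    intro h
    have h1 := (hζ.pow_eq_one_iff_dvd _).1 h
    rw [pow_succ', Nat.mul_dvd_mul_iff_right (Nat.pow_pos hN.pos)] at h1
    have h2 := Nat.Coprime.eq_one_of_dvd heN.symm h1
    exact hN.one_lt.ne' h2
  obtain ⟨γ₁, h1Ω, h1b, B₁, h1c, h1B, h1v⟩ := exists_inert_rot Ω (PX.ac_Om i) hbn htop hζ0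
  have hin1 : Inert (adjoin k (Set.range x)) γ₁ := ⟨hrotF γ₁ h1Ω h1b, B₁, h1c, h1B⟩
  by_cases hN2 : N = 2
  · subst hN2
    have h2 : (2 : k) ≠ 0 := by exact_mod_cast hNk
    have hcm : c = -1 := (sq_eq_one_iff.1 hcN).resolve_left hc1
    subst hcm
    -- the rotation at zero
    have hb0 : b ≠ 0 := fun h => hbn (h ▸ zero_mem _)
    have hbin : b⁻¹ ∉ Ω := fun h => hbn (by rw [← inv_inv b]; exact inv_mem h)
    have htopi : ALG.ac (Ω ⊔ k⟮b⁻¹⟯) = ⊤ := by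
      rw [eq_top_iff, ← htop]
      refine ALG.ac_mono (sup_le le_sup_left ?_)
      rw [adjoin_simple_le_iff, ← inv_inv b]
      refine inv_mem ?_
      rw [inv_inv]
      exact (le_sup_right : k⟮b⁻¹⟯ ≤ _) (mem_adjoin_simple_self k b⁻¹)
    obtain ⟨γ₀, h0Ω, h0b', B₀, h0c, h0B, h0v⟩ :=
      exists_inert_rot Ω (PX.ac_Om i) hbin htopi (inv_ne_zero hζ0)
    have h0b : γ₀ b = algebraMap k K ζ * b := by
      have h3 : (γ₀ b)⁻¹ = (algebraMap k K ζ * b)⁻¹ := by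
        rw [← map_inv₀, h0b', mul_inv, map_inv₀]
      exact inv_injective h3
    have hin0 : Inert (adjoin k (Set.range x)) γ₀ := ⟨hrotF γ₀ h0Ω h0b, B₀, h0c, h0B⟩
    have hζM2 : ζ ^ (e * 2 ^ s) = -1 := by
      refine (sq_eq_one_iff.1 ?_).resolve_left hζM
      rw [← pow_mul, mul_assoc, ← pow_succ, mul_comm, pow_mul, hζ.pow_eq_one, one_pow]
    refine exists_h_two h2 Ω u (e * 2 ^ s) h0Ω h1Ω (fun j => he γ₀ hin0 1 (one_mem _) j)
      (fun j => he γ₁ hin1 1 (one_mem _) j) ?_ ?_ B₀ B₁ h0c h1c h0B h1B ?_ h1v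
    · rw [hrotl γ₀ h0b, hζM2, map_neg, map_one, neg_one_mul]
    · rw [hrotl γ₁ h1b, hζM2, map_neg, map_one, neg_one_mul]
    · rw [map_inv₀, one_lt_inv₀ (zero_lt_iff.2 ((Valuation.ne_zero_iff _).2 hb0))] at h0v
      exact h0v
  · have hN3 : 3 ≤ N := by
      have := hN.two_le
      omega
    exact exists_h_odd' p hN3 hNp (adjoin k (Set.range x)) Ω hbn' htop hF u (e * N ^ s)
      (fun h hh j => he γ₁ hin1 h hh j) h1Ω
      (hrotl γ₁ h1b _) (pow_ne_zero _ hζ0) hζM hc0 hc1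

end RS
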