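import Pool.Agent.H20.RT.Pri
import Pool.Agent.H20.RS.CopVal

/-!
The fields `F_s` of bounded ramification: all `z ∈ K` such that, for some `e` prime to `N`,
`g ^ (e * N ^ s)` fixes `z` for all automorphisms `g` of `K` over `F` in the inertia group of some
valuation ring of `K` containing `k`.
-/

set_option linter.style.haveILetI false

namespace RS

open Polynomial IntermediateField

variable {k K : Type*} [Field k] [Field K] [Algebra k K]

/-- `g` is over `F` and lies in the inertia group of some valuation ring of `K` containing `k` -/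
def Inert (F : IntermediateField k K) (g : Gal(K/k)) : Prop :=
  g ∈ F.fixingSubgroup ∧ ∃ B : ValuationSubring K, (∀ c : k, algebraMap k K c ∈ B) ∧
    ∀ b ∈ B, B.valuation (g b - b) < 1

theorem inert_conj {F : IntermediateField k K} {g h : Gal(K/k)} (hg : Inert F g)
    (hh : h ∈ F.fixingSubgroup) : Inert F (h⁻¹ * g * h) := by
  obtain ⟨hgF, B, hB, hgB⟩ := hg
  refine ⟨mul_mem (mul_mem (inv_mem hh) hgF) hh, B.comap (h : K →+* K), fun c => ?_,
    fun b hb => ?_⟩
  · rw [ValuationSubring.mem_comap]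
    change h (algebraMap k K c) ∈ B
    rw [AlgEquiv.commutes]
    exact hB c
  · rw [ValuationSubring.mem_comap] at hb
    have h1 := hgB (h b) hb
    rw [CopVal.lt_one_iff] at h1 ⊢
    have h2 : h ((h⁻¹ * g * h) b - b) = g (h b) - h b := by
      rw [map_sub]
      congr 1
      exact PX.apply_inv h _
    rcases h1 with h1 | h1
    · left
      have h3 : h ((h⁻¹ * g * h) b - b) = h 0 := by rw [h2, h1, map_zero]
      exact h.injective h3
    · right
      rw [ValuationSubring.mem_comap]
      change ¬ h (((h⁻¹ * g * h) b - b)⁻¹) ∈ B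
      rw [map_inv₀, h2]
      exact h1

/-- all `z ∈ K` such that, for some `e` prime to `N`, `g ^ (e * N ^ s)` fixes `z` for all
automorphisms `g` of `K` over `F` in the inertia group of some valuation ring of `K` containing
`k` -/
def ramS (N s : ℕ) (F : IntermediateField k K) : IntermediateField k K where
  carrier := {z | ∃ e, Nat.Coprime e N ∧ ∀ g, Inert F g → (g ^ (e * N ^ s)) z = z}
  mul_mem' := by
    rintro a b ⟨e, he, h⟩ ⟨e', he', h'⟩
    refine ⟨e * e', Nat.Coprime.mul_left he he', fun g hg => ?_⟩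
    rw [map_mul]
    have h1 := fix_mul_left (h g hg) e'
    have h2 := fix_mul_right (h' g hg) e
    rw [mul_right_comm] at h1
    rw [← mul_assoc] at h2
    rw [h1, h2]
  one_mem' := ⟨1, Nat.coprime_one_left N, fun g _ => map_one _⟩
  add_mem' := by
    rintro a b ⟨e, he, h⟩ ⟨e', he', h'⟩
    refine ⟨e * e', Nat.Coprime.mul_left he he', fun g hg => ?_⟩
    rw [map_add]
    have h1 := fix_mul_left (h g hg) e'
    have h2 := fix_mul_right (h' g hg) e
    rw [mul_right_comm] at h1
    rw [← mul_assoc] at h2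
    rw [h1, h2]
  zero_mem' := ⟨1, Nat.coprime_one_left N, fun g _ => map_zero _⟩
  algebraMap_mem' := fun c => ⟨1, Nat.coprime_one_left N, fun g _ => AlgEquiv.commutes _ c⟩
  inv_mem' := by
    rintro a ⟨e, he, h⟩
    exact ⟨e, he, fun g hg => by rw [map_inv₀, h g hg]⟩

theorem mem_ramS {N s : ℕ} {F : IntermediateField k K} {z : K} : z ∈ ramS N s F ↔
    ∃ e, Nat.Coprime e N ∧ ∀ g, Inert F g → (g ^ (e * N ^ s)) z = z := Iff.rfl

theorem priS_le_ramS (N s : ℕ) (F : IntermediateField k K) : priS N s F ≤ ramS N s F := by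
  intro z hz
  obtain ⟨e, he, h⟩ := mem_priS.1 hz
  exact mem_ramS.2 ⟨e, he, fun g hg => h g hg.1⟩

theorem le_ramS (N s : ℕ) (F : IntermediateField k K) : F ≤ ramS N s F :=
  (le_priS N s F).trans (priS_le_ramS N s F)

/-- the same exponent for the conjugates -/
theorem ramS_conj {M : ℕ} {F : IntermediateField k K} {z : K}
    (hz : ∀ g, Inert F g → (g ^ M) z = z) {h : Gal(K/k)} (hh : h ∈ F.fixingSubgroup)
    {g : Gal(K/k)} (hg : Inert F g) : (g ^ M) (h z) = h z := by
  have h1 := hz (h⁻¹ * g * h) (inert_conj hg hh)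
  have h2 : (h⁻¹ * g * h) ^ M = h⁻¹ * g ^ M * h := by
    have h3 := conj_pow (i := M) (a := h⁻¹) (b := g)
    rwa [inv_inv] at h3
  rw [h2] at h1
  have h4 : h⁻¹ ((g ^ M) (h z)) = z := h1
  have h5 := congrArg h h4
  rwa [PX.apply_inv] at h5

theorem ramS_stable {N s : ℕ} {F : IntermediateField k K} {h : Gal(K/k)}
    (hh : h ∈ F.fixingSubgroup) {z : K} (hz : z ∈ ramS N s F) : h z ∈ ramS N s F := by
  obtain ⟨e, he, hez⟩ := mem_ramS.1 hz
  exact mem_ramS.2 ⟨e, he, fun g hg => ramS_conj hez hh hg⟩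

/-- one exponent for finitely many elements and all their conjugates -/
theorem ramS_fin {N s r : ℕ} {F : IntermediateField k K} {u : Fin r → K}
    (hu : ∀ i, u i ∈ ramS N s F) :
    ∃ e, Nat.Coprime e N ∧ ∀ g, Inert F g → ∀ h ∈ F.fixingSubgroup, ∀ i,
      (g ^ (e * N ^ s)) (h (u i)) = h (u i) := by
  classical
  choose e he hef using fun i => mem_ramS.1 (hu i)
  refine ⟨∏ i, e i, Nat.Coprime.prod_left (fun i _ => he i), fun g hg h hh i => ?_⟩
  obtain ⟨c, hc⟩ : e i ∣ ∏ i, e i := Finset.dvd_prod_of_mem e (Finset.mem_univ i)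
  rw [hc, mul_right_comm]
  exact fix_mul_left (ramS_conj (hef i) hh hg) c

end RS
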